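import Pool.Agent.W5h89.SSD.Ext
import Pool.Agent.Y121.AHS.Ext
import Pool.Agent.Y133.Half.DLaw

/-!
# The zero-one law
-/

open CategoryTheory AlgebraicGeometry Filter Topology

universe u v w

namespace Pool.Agent.W5h89.SSD

open Module
open Pool.Agent.H914 Pool.Agent.H914.VarClass Pool.Agent.H914.VarClass.Obj
  Pool.Agent.H914.WeilCohomology Pool.Agent.Y133.Half
open Pool.Agent.Y121.AHS (RatioToZero)

variable {k : Type u} [Field k] {𝒱 : VarClass k} {ops : CycleOps 𝒱}
  {W : WeilCohomology.{u, v} ops} {Γ : Type w} [Group Γ] (A : GaloisAction W Γ)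
  {X X' Y Y' Z : 𝒱.Obj} {n : ℕ}

lemma ratio_zero {a t : ℕ → ℕ} (h : ∀ N : ℕ, ∃ n₀ : ℕ, ∀ n ≥ n₀, N * a n ≤ t n) :
    RatioToZero a t := by
  rw [RatioToZero, Metric.tendsto_atTop]
  intro ε hε
  obtain ⟨N, hN⟩ := exists_nat_gt (1 / ε)
  obtain ⟨n₀, hn₀⟩ := h N
  refine ⟨n₀, fun n hn => ?_⟩
  have h1 := hn₀ n hn
  have h2 : (0 : ℝ) ≤ (a n : ℝ) / t n := by positivity
  rw [Real.dist_eq, sub_zero, abs_of_nonneg h2]
  rcases Nat.eq_zero_or_pos (t n) with h3 | h3
  · rw [h3, Nat.cast_zero, div_zero]; exact hε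
  · have h4 : (0 : ℝ) < t n := by exact_mod_cast h3
    rw [div_lt_iff₀ h4]
    have h5 : (N : ℝ) * a n ≤ t n := by exact_mod_cast h1
    have h6 : 1 < ε * N := by
      have := (div_lt_iff₀ hε).1 hN
      linarith [mul_comm ε (N : ℝ)]
    rcases Nat.eq_zero_or_pos (a n) with h7 | h7
    · rw [h7, Nat.cast_zero]; positivity
    · have h8 : (0 : ℝ) < a n := by exact_mod_cast h7
      calc (a n : ℝ) = 1 * a n := (one_mul _).symm
        _ < ε * N * a n := by gcongr
        _ = ε * (N * a n) := by ring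
        _ ≤ ε * t n := by gcongr

/-- The product of two morphisms. -/
noncomputable def prodMap (f : X ⟶ X') (g : Y ⟶ Y') : X.prod Y ⟶ X'.prod Y' :=
  Obj.lift (fst X Y ≫ f) (snd X Y ≫ g)

lemma map_prodMap_xp (f : X ⟶ X') (g : Y ⟶ Y') (x : W.H X') (y : W.H Y') :
    W.map (prodMap f g) (xp W x y) = xp W (W.map f x) (W.map g y) := by
  rw [xp, xp, map_mul, ← W.map_comp, ← W.map_comp, prodMap, Obj.lift_fst, Obj.lift_snd,
    W.map_comp, W.map_comp]

/-- Künneth: pull-backs along products of morphisms are injective, if the two pull-backs are. -/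
lemma inj_prodMap {f : X ⟶ X'} {g : Y ⟶ Y'} (hf : Function.Injective (W.map f))
    (hg : Function.Injective (W.map g)) : Function.Injective (W.map (prodMap f g)) := by
  have h1 : (W.map (prodMap f g)).toLinearMap ∘ₗ (kappa W X' Y').toLinearMap =
      (kappa W X Y).toLinearMap ∘ₗ
        TensorProduct.map (W.map f).toLinearMap (W.map g).toLinearMap := by
    apply TensorProduct.ext'
    intro x y
    rw [LinearMap.comp_apply, LinearMap.comp_apply, TensorProduct.map_tmul]
    change W.map (prodMap f g) (kappa W X' Y' (x ⊗ₜ y)) = kappa W X Y (W.map f x ⊗ₜ W.map g y)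
    rw [kappa_tmul, kappa_tmul]
    exact map_prodMap_xp f g x y
  have h2 : Function.Injective (TensorProduct.map (W.map f).toLinearMap (W.map g).toLinearMap) :=
    TensorProduct.map_injective_of_flat_flat _ _ hf hg
  intro c d hcd
  obtain ⟨c', rfl⟩ := (kappa W X' Y').surjective c
  obtain ⟨d', rfl⟩ := (kappa W X' Y').surjective d
  have h3 := LinearMap.congr_fun h1 c'
  have h4 := LinearMap.congr_fun h1 d'
  have h5 : kappa W X Y (TensorProduct.map (W.map f).toLinearMap (W.map g).toLinearMap c') =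
      kappa W X Y (TensorProduct.map (W.map f).toLinearMap (W.map g).toLinearMap d') :=
    h3.symm.trans (hcd.trans h4)
  rw [h2 ((kappa W X Y).injective h5)]

/-- A dominated variety: some power of `Y` has a morphism to `X` with injective pull-back. -/
lemma exists_inj_pw {f : Z ⟶ X} (hf : Function.Injective (W.map f)) :
    ∀ n, ∃ F : pw Z n ⟶ pw X n, Function.Injective (W.map F)
  | 0 => ⟨f, hf⟩
  | n + 1 => by
    obtain ⟨F, hF⟩ := exists_inj_pw hf n
    exact ⟨prodMap F f, inj_prodMap hF hf⟩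

lemma num_inj {S : Sys W} {f : Z ⟶ Y} (hf : Function.Injective (W.map f)) (h : S.Num Z = ⊥) :
    S.Num Y = ⊥ := by
  rw [Submodule.eq_bot_iff]
  intro c hc
  have h1 : W.map f c ∈ S.Num Z := Sys.Num.map _ hc
  rw [h, Submodule.mem_bot] at h1
  exact hf (h1.trans (map_zero _).symm)

theorem split_dom [CharZero W.K] (hnum : ∀ n, (tPred A).sys.Num (pw Y n) = ⊥) {N i : ℕ}
    {f : pw Y N ⟶ X} (hf : Function.Injective (W.map f))
    {V : Submodule W.K (W.H X)} (hVi : V ≤ W.gr X i) (hV : IsStable A V)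
    (hd : HasDualLine A Y i hV) : IsSummand A i V := by
  refine split_aux A (X := Y) (fun n m' => ?_) hVi hV hd
  obtain ⟨F, hF⟩ := exists_inj_pw hf n
  have h1 : Function.Injective (W.map (𝟙 (pw Y m'))) := by
    intro a b hab
    rwa [W.map_id, W.map_id] at hab
  refine num_inj (inj_prodMap hF h1) ?_
  obtain ⟨M, ⟨θ⟩⟩ := exists_iso_pw Y N n
  exact num_iso (prodCongr θ (Iso.refl _) ≪≫ pwAdd Y M m') (hnum _)

/-- **The zero-one law.** -/
theorem law [CharZero W.K] (X Y : 𝒱.Obj) (N i : ℕ) (f : pw Y N ⟶ X)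
    (hf : Function.Injective (W.map f)) :
    ((∀ n, tateRank A (pw Y n) = tateDim A (pw Y n)) ∧
      ∀ V : Submodule W.K (W.H X), V ≤ W.gr X i → ∀ hV : IsStable A V,
        HasDualLine A Y i hV → IsSummand A i V) ∨
    RatioToZero (fun n => tateRank A (pw Y n)) fun n => tateDim A (pw Y n) := by
  rcases Sys.num_or (tPred A).sys (tPred A).sys (fun _ => le_rfl) Y with h | h
  · left
    refine ⟨fun n => ?_, fun V hVi hV hd => split_dom A h hf hVi hV hd⟩
    have h1 := Sys.a_add_num (tPred A).sys (pw Y n)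
    rw [h n, finrank_bot, add_zero] at h1
    rw [tateRank_eq, h1]
    rfl
  · right
    refine ratio_zero fun M => ?_
    obtain ⟨n₀, hn₀⟩ := h M
    refine ⟨n₀, fun n hn => ?_⟩
    rw [tateRank_eq]
    exact hn₀ n hn

/-- The rank of the form on a smaller system is smaller. -/
lemma a_mono {S T : Sys W} (hST : ∀ X, S.C X ≤ T.C X) (Z : 𝒱.Obj) : S.a Z ≤ T.a Z := by
  have h1 : S.F Z 1 = (T.F Z 1).compl₁₂ (Submodule.inclusion (hST Z))
      (Submodule.inclusion (hST Z)) := by
    apply LinearMap.ext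
    intro c
    apply LinearMap.ext
    intro d
    rfl
  rw [Sys.a, Sys.a, h1]
  exact rk_comp_le _ _ _

lemma cycRank_le (Z : 𝒱.Obj) : cycRank ops Z ≤ tateRank A Z := by
  rw [← numDim_eq_cycRank W Z, tateRank_eq]
  exact a_mono (fun X => ClassPred.alg_le) Z

/-- **Tate classes which are algebraic in a positive proportion.** -/
theorem semisimple_of_density [CharZero W.K] (X Y : 𝒱.Obj) (N i : ℕ) (f : pw Y N ⟶ X)
    (hf : Function.Injective (W.map f))
    (hd : ∀ V : Submodule W.K (W.H X), V ≤ W.gr X i → ∀ hV : IsStable A V, HasDualLine A Y i hV)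
    (hpos : ∃ ε : ℝ, 0 < ε ∧ ∀ n₀ : ℕ, ∃ n ≥ n₀,
      ε * (tateDim A (pw Y n) : ℝ) ≤ (cycRank ops (pw Y n) : ℝ)) : IsSemisimple A X i := by
  rcases subsingleton_or_nontrivial (W.H Y) with hs | hn
  · have h1 : finrank W.K (W.H (pw Y N)) = 0 := by
      rw [finrank_pw, Module.finrank_zero_of_subsingleton, zero_pow (Nat.succ_ne_zero N)]
    have h2 : Subsingleton (W.H (pw Y N)) := Module.finrank_zero_iff.1 h1
    have h3 : ∀ x : W.H X, x = 0 := fun x => hf (Subsingleton.elim _ _)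
    intro V hV _
    refine ⟨W.gr X i, fun g x hx => A.gr g X i x hx, ?_, ?_⟩
    · rw [Submodule.eq_bot_iff]; exact fun x _ => h3 x
    · exact le_antisymm (sup_le hV le_rfl) le_sup_right
  rcases law A X Y N i f hf with ⟨-, h⟩ | h
  · exact fun V hVi hV => h V hVi hV (hd V hVi hV)
  exfalso
  obtain ⟨ε, hε, hpos⟩ := hpos
  rw [RatioToZero, Metric.tendsto_atTop] at h
  obtain ⟨n₀, hn₀⟩ := h ε hε
  obtain ⟨n, hn, h1⟩ := hpos n₀
  have h2 := hn₀ n hn
  have h3 : (0 : ℝ) ≤ (tateRank A (pw Y n) : ℝ) / tateDim A (pw Y n) := by positivity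
  rw [Real.dist_eq, sub_zero, abs_of_nonneg h3] at h2
  have h4 : 0 < tateDim A (pw Y n) := by
    have h5 : Nontrivial (W.H (pw Y n)) := by
      apply Module.nontrivial_of_finrank_pos (R := W.K)
      rw [finrank_pw]
      exact Nat.pow_pos Module.finrank_pos
    have h6 : (1 : W.H (pw Y n)) ∈ tateSpan A (pw Y n) := (tPred A).sys.one (pw Y n)
    have h7 : Nontrivial (tateSpan A (pw Y n)) := ⟨⟨⟨1, h6⟩, 0, fun h => by
      exact one_ne_zero (congrArg Subtype.val h)⟩⟩
    exact Module.finrank_pos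
  have h5 : (0 : ℝ) < tateDim A (pw Y n) := by exact_mod_cast h4
  rw [div_lt_iff₀ h5] at h2
  have h6 : (cycRank ops (pw Y n) : ℝ) ≤ tateRank A (pw Y n) := by
    exact_mod_cast cycRank_le A (pw Y n)
  linarith

end Pool.Agent.W5h89.SSD
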