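import Pool.Agent.Y133.Half.PwDefs

/-!
# Galois actions on a Weil cohomology theory: definitions

In the intended use `k` is a finitely generated field of characteristic zero, the varieties are the
smooth projective varieties over `k`, the Weil cohomology theory `W` is `ℓ`-adic cohomology of the
varieties over the algebraic closure, with coefficients `W.K = ℚ_ℓ`, and `Γ` is the Galois group of
`k`.
-/

open CategoryTheory AlgebraicGeometry

universe u v w

namespace Pool.Agent.W5h89.SSD

open Pool.Agent.H914
open Pool.Agent.Y133.Half (pw)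

variable {k : Type u} [Field k] {𝒱 : VarClass k} {ops : CycleOps 𝒱}

/-- An action of the group `Γ` on the cohomology of all varieties of the class, with the formal
properties of the action of the Galois group on `ℓ`-adic cohomology: the elements act by linear
ring endomorphisms which preserve the degrees, commute with pull-backs and respect the classes of
algebraic cycles (defined over the base field) and the orientations up to the powers of the
character `c` (the cyclotomic character; the Tate twists are suppressed). -/
structure GaloisAction (W : WeilCohomology.{u, v} ops) (Γ : Type w) [Group Γ] where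
  /-- the action -/
  e : Γ → ∀ X : 𝒱.Obj, W.H X →ₗ[W.K] W.H X
  /-- the action on the Tate twist -/
  c : Γ → W.K
  ne : ∀ g, c g ≠ 0
  one : ∀ (X : 𝒱.Obj) (x : W.H X), e 1 X x = x
  mul : ∀ (g h : Γ) (X : 𝒱.Obj) (x : W.H X), e (g * h) X x = e g X (e h X x)
  ring : ∀ (g : Γ) (X : 𝒱.Obj) (x y : W.H X), e g X (x * y) = e g X x * e g X y
  gr : ∀ (g : Γ) (X : 𝒱.Obj) (i : ℕ) (x : W.H X), x ∈ W.gr X i → e g X x ∈ W.gr X i
  nat : ∀ (g : Γ) (X Y : 𝒱.Obj) (f : X ⟶ Y) (y : W.H Y), e g X (W.map f y) = W.map f (e g Y y)
  cyc : ∀ (g : Γ) (X : 𝒱.Obj) (j : ℕ) (z : X.Cycles), X.IsCyc j z →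
    e g X (W.cl X z) = c g ^ j • W.cl X z
  tr : ∀ (g : Γ) (X : 𝒱.Obj) (x : W.H X), W.tr X (e g X x) = c g ^ X.dim * W.tr X x

variable {W : WeilCohomology.{u, v} ops} {Γ : Type w} [Group Γ] (A : GaloisAction W Γ)

/-- The Tate classes of degree `2 j`: the classes in `H^(2 j)(X)` on which the elements `g` of a
subgroup of finite index act as the multiplication by `c g ^ j` (that is, the classes in
`H^(2 j)(X)(j)` which are fixed by an open subgroup). -/
def IsTate (X : 𝒱.Obj) (j : ℕ) (x : W.H X) : Prop :=
  x ∈ W.gr X (2 * j) ∧ ∃ Δ : Subgroup Γ, Δ.FiniteIndex ∧ ∀ g ∈ Δ, A.e g X x = A.c g ^ j • x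

/-- The space spanned by the Tate classes of all degrees. -/
def tateSpan (X : 𝒱.Obj) : Submodule W.K (W.H X) := Submodule.span W.K {x | ∃ j, IsTate A X j x}

/-- The dimension of the space of Tate classes. -/
noncomputable def tateDim (X : 𝒱.Obj) : ℕ := Module.finrank W.K (tateSpan A X)

/-- The rank of the intersection form on the space of Tate classes: the dimension of this space
minus the dimension of the kernel of the form. -/
noncomputable def tateRank (X : 𝒱.Obj) : ℕ :=
  tateDim A X - Module.finrank W.K
    (Submodule.span W.K {x | x ∈ tateSpan A X ∧ ∀ y ∈ tateSpan A X, W.tr X (x * y) = 0})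

/-- The subspace `V` is stable under the group. -/
def IsStable {X : 𝒱.Obj} (V : Submodule W.K (W.H X)) : Prop := ∀ g, ∀ x ∈ V, A.e g X x ∈ V

/-- The determinant of `g` on the stable subspace `V`. -/
noncomputable def detOn {X : 𝒱.Obj} {V : Submodule W.K (W.H X)} (h : IsStable A V) (g : Γ) :
    W.K :=
  LinearMap.det ((A.e g X).restrict (h g))

/-- The determinant of the stable subspace `V` of the cohomology of degree `i` of some variety is
potentially dual, up to a Tate twist, to a line in the cohomology of a power of `X`: some power of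
`X` has a cohomology class `x`, not zero, of degree `i'`, such that `d i + i' = 2 t`, where `d` is
the dimension of `V`, and the elements `g` of a subgroup of finite index multiply `x` with numbers
`χ` such that `det (g | V) * χ = c g ^ t`. (If `x = 1` is the unit class, `i' = 0` and `χ = 1`, this
says that the determinant is potentially a power of the cyclotomic character.) -/
def HasDualLine (X : 𝒱.Obj) (i : ℕ) {Y : 𝒱.Obj} {V : Submodule W.K (W.H Y)}
    (h : IsStable A V) : Prop :=
  ∃ (m i' t : ℕ) (x : W.H (pw X m)) (Δ : Subgroup Γ), Δ.FiniteIndex ∧ x ≠ 0 ∧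
    x ∈ W.gr (pw X m) i' ∧ Module.finrank W.K V * i + i' = 2 * t ∧
    ∀ g ∈ Δ, ∃ χ : W.K, A.e g (pw X m) x = χ • x ∧ detOn A h g * χ = A.c g ^ t

/-- The stable subspace `V` of the cohomology of degree `i` is a direct summand of it: it has a
stable complement. -/
def IsSummand {X : 𝒱.Obj} (i : ℕ) (V : Submodule W.K (W.H X)) : Prop :=
  ∃ V' : Submodule W.K (W.H X), IsStable A V' ∧ V ⊓ V' = ⊥ ∧ V ⊔ V' = W.gr X i

/-- The action of the group on the cohomology of degree `i` is semisimple: every stable subspace has
a stable complement. -/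
def IsSemisimple (X : 𝒱.Obj) (i : ℕ) : Prop :=
  ∀ V : Submodule W.K (W.H X), V ≤ W.gr X i → IsStable A V → IsSummand A i V

end Pool.Agent.W5h89.SSD
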