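import Pool.Agent.W5h89.SSD.Defs
import Pool.Agent.Y133.Half.Main2
import Pool.Agent.Y133.Half.PredSys
import Pool.Agent.Y133.Half.PairPow
import Pool.Agent.Y121.AH.Gen

/-!
# The system of Tate classes
-/

open CategoryTheory AlgebraicGeometry

universe u v w

namespace Pool.Agent.W5h89.SSD

open Module
open Pool.Agent.H914 Pool.Agent.H914.VarClass Pool.Agent.H914.VarClass.Obj
  Pool.Agent.H914.WeilCohomology Pool.Agent.Y133.Half

variable {k : Type u} [Field k] {𝒱 : VarClass k} {ops : CycleOps 𝒱}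
  {W : WeilCohomology.{u, v} ops} {Γ : Type w} [Group Γ] (A : GaloisAction W Γ)
  {X Y Z : 𝒱.Obj}

lemma GaloisAction.inv_right (g : Γ) (X : 𝒱.Obj) (x : W.H X) : A.e g X (A.e g⁻¹ X x) = x := by
  rw [← A.mul, mul_inv_cancel, A.one]

lemma GaloisAction.inv_left (g : Γ) (X : 𝒱.Obj) (x : W.H X) : A.e g⁻¹ X (A.e g X x) = x := by
  rw [← A.mul, inv_mul_cancel, A.one]

lemma GaloisAction.e_one (g : Γ) (X : 𝒱.Obj) : A.e g X (1 : W.H X) = 1 := by
  have h := A.ring g X 1 (A.e g⁻¹ X 1)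
  rw [one_mul, A.inv_right, mul_one] at h
  exact h.symm

/-- The action as a ring homomorphism. -/
noncomputable def GaloisAction.rh (g : Γ) (X : 𝒱.Obj) : W.H X →+* W.H X where
  toFun := A.e g X
  map_one' := A.e_one g X
  map_mul' := A.ring g X
  map_zero' := map_zero _
  map_add' := map_add _

lemma GaloisAction.rh_apply (g : Γ) (X : 𝒱.Obj) (x : W.H X) : A.rh g X x = A.e g X x := rfl

lemma GaloisAction.push (g : Γ) (f : X ⟶ Y) (x : W.H X) :
    A.c g ^ X.dim • A.e g Y (W.push f x) = A.c g ^ Y.dim • W.push f (A.e g X x) := by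
  apply W.tr_ext
  intro b'
  obtain ⟨b, rfl⟩ : ∃ b, A.e g Y b = b' := ⟨A.e g⁻¹ Y b', A.inv_right g Y b'⟩
  rw [smul_mul_assoc, smul_mul_assoc, map_smul, map_smul, ← A.ring, A.tr, W.tr_push,
    W.tr_push, ← A.nat, ← A.ring, A.tr, smul_eq_mul, smul_eq_mul]
  ring

lemma push_gr (f : X ⟶ Y) {j l : ℕ}
    (h : l + X.dim = j + Y.dim) {a : W.H X} (ha : a ∈ W.gr X (2 * j)) :
    W.push f a ∈ W.gr Y (2 * l) := by
  have h5 := W.push_mem f ha
  have h6 : ((2 * j : ℕ) : ℤ) + 2 * ((Y.dim : ℤ) - X.dim) = ((2 * l : ℕ) : ℤ) := by omega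
  rw [h6, grZ_natCast] at h5
  exact h5

/-- The classes which are fixed by subgroups of finite index. -/
noncomputable def tPred : ClassPred W where
  P X j x := IsTate A X j x
  gr h := h.1
  zero {X j} := ⟨Submodule.zero_mem _, ⊤, inferInstance, fun g _ => by rw [map_zero, smul_zero]⟩
  add := by
    rintro X j a b ⟨ha, Δ, hΔ, h1⟩ ⟨hb, Δ', hΔ', h2⟩
    refine ⟨Submodule.add_mem _ ha hb, Δ ⊓ Δ', inferInstance, fun g hg => ?_⟩
    rw [map_add, h1 g hg.1, h2 g hg.2, smul_add]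
  smul := by
    rintro X j r a ⟨ha, Δ, hΔ, h1⟩
    refine ⟨Submodule.smul_mem _ _ ha, Δ, hΔ, fun g hg => ?_⟩
    rw [map_smul, h1 g hg, smul_comm]
  cl := by
    intro X j z hz
    refine ⟨W.cl_mem hz, ⊤, inferInstance, fun g _ => A.cyc g X j z hz⟩
  mul := by
    rintro X i j a b ⟨ha, Δ, hΔ, h1⟩ ⟨hb, Δ', hΔ', h2⟩
    refine ⟨by rw [mul_add]; exact W.mul_mem ha hb, Δ ⊓ Δ', inferInstance, fun g hg => ?_⟩
    rw [A.ring, h1 g hg.1, h2 g hg.2, smul_mul_smul_comm, pow_add]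
  map := by
    rintro X Y f j a ⟨ha, Δ, hΔ, h1⟩
    refine ⟨W.map_mem f ha, Δ, hΔ, fun g hg => ?_⟩
    rw [A.nat, h1 g hg, map_smul]
  push := by
    rintro X Y f j l hl a ⟨ha, Δ, hΔ, h1⟩
    refine ⟨push_gr f hl ha, Δ, hΔ, fun g hg => ?_⟩
    have h2 := A.push g f a
    rw [h1 g hg, map_smul, smul_smul, ← pow_add] at h2
    have h3 : A.c g ^ X.dim ≠ 0 := pow_ne_zero _ (A.ne g)
    have h4 : A.c g ^ X.dim • A.e g Y (W.push f a) =
        A.c g ^ X.dim • (A.c g ^ l • W.push f a) := by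
      rw [h2, smul_smul, ← pow_add]
      congr 2
      omega
    exact smul_right_injective _ h3 h4

lemma tateSpan_eq (X : 𝒱.Obj) : (tPred A).sys.C X = tateSpan A X := rfl

lemma tateDim_eq (X : 𝒱.Obj) : finrank W.K ((tPred A).sys.C X) = tateDim A X := rfl

lemma num_eq (X : 𝒱.Obj) : Submodule.span W.K {x | x ∈ tateSpan A X ∧
    ∀ y ∈ tateSpan A X, W.tr X (x * y) = 0} = (tPred A).sys.Num X := by
  have h : ({x | x ∈ tateSpan A X ∧ ∀ y ∈ tateSpan A X, W.tr X (x * y) = 0} : Set (W.H X)) =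
      (((tPred A).sys.Num X : Submodule W.K (W.H X)) : Set (W.H X)) := rfl
  rw [h, Submodule.span_eq]

lemma tateRank_eq (X : 𝒱.Obj) : tateRank A X = (tPred A).sys.a X := by
  have h := Sys.a_add_num (tPred A).sys X
  rw [tateRank, num_eq, ← tateDim_eq, ← h, Nat.add_sub_cancel]

end Pool.Agent.W5h89.SSD
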