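import Pool.Agent.W5h89.SSD.Lin
import Pool.Agent.W5h89.SSD.TSys

/-!
# External products and exterior powers
-/

open CategoryTheory AlgebraicGeometry

universe u v w

namespace Pool.Agent.W5h89.SSD

open Module
open Pool.Agent.H914 Pool.Agent.H914.VarClass Pool.Agent.H914.VarClass.Obj
  Pool.Agent.H914.WeilCohomology Pool.Agent.Y133.Half

variable {k : Type u} [Field k] {𝒱 : VarClass k} {ops : CycleOps 𝒱}
  {W : WeilCohomology.{u, v} ops} {Γ : Type w} [Group Γ] (A : GaloisAction W Γ)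
  {X Y Z : 𝒱.Obj} {n : ℕ}

/-- The external products of classes on `X` as a class on a power of `X`. -/
noncomputable def Xi (W : WeilCohomology.{u, v} ops) (X : 𝒱.Obj) (n : ℕ) :
    MultilinearMap W.K (fun _ : Fin (n + 1) => W.H X) (W.H (pw X n)) :=
  (MultilinearMap.mkPiAlgebraFin W.K (n + 1) (W.H (pw X n))).compLinearMap
    fun a => (W.map (prj X n a)).toLinearMap

lemma Xi_apply (v : Fin (n + 1) → W.H X) :
    Xi W X n v = (List.ofFn fun a => W.map (prj X n a) (v a)).prod := by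
  rw [Xi, MultilinearMap.compLinearMap_apply, MultilinearMap.mkPiAlgebraFin_apply]
  rfl

lemma list_gr {i : ℕ} (l : List (W.H Z)) (hl : ∀ x ∈ l, x ∈ W.gr Z i) :
    l.prod ∈ W.gr Z (l.length * i) := by
  induction l with
  | nil => rw [List.prod_nil, List.length_nil, zero_mul]; exact W.one_mem Z
  | cons x l ih =>
    rw [List.prod_cons, List.length_cons, add_mul, one_mul, add_comm]
    exact W.mul_mem (hl x List.mem_cons_self) (ih fun y hy => hl y (List.mem_cons_of_mem _ hy))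

lemma Xi_gr {i : ℕ} {v : Fin (n + 1) → W.H X} (hv : ∀ a, v a ∈ W.gr X i) :
    Xi W X n v ∈ W.gr (pw X n) ((n + 1) * i) := by
  rw [Xi_apply]
  have h := list_gr (W := W) (i := i) (List.ofFn fun a => W.map (prj X n a) (v a)) (by
    intro x hx
    rw [List.mem_ofFn] at hx
    obtain ⟨a, rfl⟩ := hx
    exact W.map_mem _ (hv a))
  rwa [List.length_ofFn] at h

lemma Xi_act (g : Γ) (v : Fin (n + 1) → W.H X) :
    A.e g (pw X n) (Xi W X n v) = Xi W X n fun a => A.e g X (v a) := by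
  rw [Xi_apply, Xi_apply, ← A.rh_apply, map_list_prod, List.map_ofFn]
  congr 2
  funext a
  exact A.nat g _ _ _ _

/-- The antisymmetric external products. -/
noncomputable def Psi (W : WeilCohomology.{u, v} ops) (X : 𝒱.Obj) (n : ℕ) :
    W.H X [⋀^Fin (n + 1)]→ₗ[W.K] W.H (pw X n) :=
  MultilinearMap.alternatization (Xi W X n)

lemma Psi_apply (v : Fin (n + 1) → W.H X) :
    Psi W X n v = ∑ σ : Equiv.Perm (Fin (n + 1)),
      ((Equiv.Perm.sign σ : ℤˣ) : ℤ) • Xi W X n fun a => v (σ a) := by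
  rw [Psi, MultilinearMap.alternatization_apply]
  exact Finset.sum_congr rfl fun σ _ => rfl

lemma Psi_gr {i : ℕ} {v : Fin (n + 1) → W.H X} (hv : ∀ a, v a ∈ W.gr X i) :
    Psi W X n v ∈ W.gr (pw X n) ((n + 1) * i) := by
  rw [Psi_apply]
  exact Submodule.sum_mem _ fun σ _ => zsmul_mem (Xi_gr fun a => hv _) _

lemma Psi_act (g : Γ) (v : Fin (n + 1) → W.H X) :
    A.e g (pw X n) (Psi W X n v) = Psi W X n fun a => A.e g X (v a) := by
  rw [Psi_apply, Psi_apply, map_sum]
  exact Finset.sum_congr rfl fun σ _ => by rw [map_zsmul, Xi_act]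

/-- An alternating map on a space with a basis of the right length. -/
lemma alt_eq {K V N : Type*} [Field K] [AddCommGroup V] [Module K V] [AddCommGroup N] [Module K N]
    (f : V [⋀^Fin (n + 1)]→ₗ[K] N) (b : Basis (Fin (n + 1)) K V) (v : Fin (n + 1) → V) :
    f v = b.det v • f b := by
  have h : f = (LinearMap.toSpanSingleton K N (f b)).compAlternatingMap b.det := by
    refine Basis.ext_alternating b fun w hw => ?_
    obtain ⟨σ, rfl⟩ : ∃ σ : Equiv.Perm (Fin (n + 1)), ⇑σ = w :=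
      ⟨Equiv.ofBijective w (Finite.injective_iff_bijective.1 hw), rfl⟩
    rw [LinearMap.compAlternatingMap_apply, LinearMap.toSpanSingleton_apply]
    have h1 := f.map_perm b σ
    have h2 := b.det.map_perm b σ
    have h3 : (fun i => b (σ i)) = b ∘ σ := rfl
    rw [h3, h1, h2, b.det_self]
    rcases Int.units_eq_one_or (Equiv.Perm.sign σ) with h4 | h4
    · rw [h4, one_smul, one_smul, one_smul]
    · rw [h4, Units.neg_smul, one_smul, Units.neg_smul, one_smul, neg_smul, one_smul]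
  conv_lhs => rw [h]
  rfl

lemma Psi_det {V : Submodule W.K (W.H X)} (b : Basis (Fin (n + 1)) W.K V) (T : V →ₗ[W.K] V) :
    (Psi W X n fun a => (T (b a) : W.H X)) = LinearMap.det T • Psi W X n fun a => (b a : W.H X) := by
  have h := alt_eq ((Psi W X n).compLinearMap V.subtype) b (T ∘ b)
  rw [b.det_comp, b.det_self, mul_one] at h
  exact h

/-- The external products of linear forms. -/
lemma exists_form (ξ : Fin (n + 1) → (W.H X →ₗ[W.K] W.K)) :
    ∃ Φ : W.H (pw X n) →ₗ[W.K] W.K, ∀ w, Φ (Xi W X n w) = ∏ a, ξ a (w a) := by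
  classical
  let e := Module.finBasis W.K (W.H X)
  refine ⟨(wb e n).constr W.K fun w => ∏ a, ξ a (e (w a)), ?_⟩
  have h : ((wb e n).constr W.K fun w => ∏ a, ξ a (e (w a))).compMultilinearMap (Xi W X n) =
      (MultilinearMap.mkPiAlgebra W.K (Fin (n + 1)) W.K).compLinearMap ξ := by
    refine Basis.ext_multilinear (fun _ => e) fun w => ?_
    rw [LinearMap.compMultilinearMap_apply, Xi_apply, ← wb_eq, Basis.constr_basis,
      MultilinearMap.compLinearMap_apply, MultilinearMap.mkPiAlgebra_apply]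
  intro w
  have h1 := congrArg (fun F => F w) h
  rw [LinearMap.compMultilinearMap_apply, MultilinearMap.compLinearMap_apply,
    MultilinearMap.mkPiAlgebra_apply] at h1
  exact h1

lemma Psi_ne_zero {v : Fin (n + 1) → W.H X} (hv : LinearIndependent W.K v) :
    Psi W X n v ≠ 0 := by
  classical
  obtain ⟨g, hg⟩ := LinearMap.exists_leftInverse_of_injective
    (Finsupp.linearCombination W.K v) (LinearMap.ker_eq_bot.2 hv)
  have hgv : ∀ a c, g (v a) c = if a = c then 1 else 0 := by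
    intro a c
    have h1 := LinearMap.congr_fun hg (Finsupp.single a 1)
    rw [LinearMap.comp_apply, Finsupp.linearCombination_single, one_smul, LinearMap.id_apply] at h1
    rw [h1, Finsupp.single_apply]
  obtain ⟨Φ, hΦ⟩ := exists_form (W := W) (X := X) (n := n) fun a => (Finsupp.lapply a) ∘ₗ g
  intro h0
  have h1 := congrArg Φ h0
  rw [Psi_apply, map_sum, map_zero, Finset.sum_eq_single 1] at h1
  · rw [map_zsmul, hΦ] at h1
    have h2 : ∏ a : Fin (n + 1), ((Finsupp.lapply a) ∘ₗ g) (v ((1 : Equiv.Perm (Fin (n + 1))) a)) =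
        (1 : W.K) := by
      refine Finset.prod_eq_one fun a _ => ?_
      rw [LinearMap.comp_apply, Finsupp.lapply_apply, hgv, Equiv.Perm.one_apply, if_pos rfl]
    rw [h2, Equiv.Perm.sign_one] at h1
    simp at h1
  · intro σ _ hσ
    rw [map_zsmul, hΦ]
    obtain ⟨a, ha⟩ : ∃ a, σ a ≠ a := by
      by_contra hcon
      push Not at hcon
      exact hσ (Equiv.ext hcon)
    have h2 : ∏ a : Fin (n + 1), ((Finsupp.lapply a) ∘ₗ g) (v (σ a)) = (0 : W.K) := by
      refine Finset.prod_eq_zero (Finset.mem_univ a) ?_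
      rw [LinearMap.comp_apply, Finsupp.lapply_apply, hgv, if_neg ha]
    rw [h2, smul_zero]
  · intro h; exact absurd (Finset.mem_univ _) h

/-- The powers of a power. -/
lemma exists_iso_pw (X : 𝒱.Obj) (m : ℕ) : ∀ n, ∃ N, Nonempty (pw (pw X m) n ≅ pw X N)
  | 0 => ⟨m, ⟨Iso.refl _⟩⟩
  | n + 1 => by
    obtain ⟨N, ⟨θ⟩⟩ := exists_iso_pw X m n
    exact ⟨N + m + 1, ⟨prodCongr θ (Iso.refl _) ≪≫ pwAdd X N m⟩⟩

lemma num_iso {S : Sys W} (θ : Z ≅ Y) (h : S.Num Y = ⊥) : S.Num Z = ⊥ := by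
  rw [Submodule.eq_bot_iff]
  intro c hc
  have h1 : W.map θ.inv c ∈ S.Num Y := Sys.Num.map _ hc
  rw [h, Submodule.mem_bot] at h1
  have h2 : W.map θ.hom (W.map θ.inv c) = c := by
    rw [← W.map_comp, θ.hom_inv_id, W.map_id]
  rw [← h2, h1, map_zero]

lemma xp_act (g : Γ) (x : W.H X) (y : W.H Y) :
    A.e g (X.prod Y) (xp W x y) = xp W (A.e g X x) (A.e g Y y) := by
  rw [xp, xp, A.ring, A.nat, A.nat]

lemma xp_gr {i j : ℕ} {x : W.H X} {y : W.H Y} (hx : x ∈ W.gr X i) (hy : y ∈ W.gr Y j) :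
    xp W x y ∈ W.gr (X.prod Y) (i + j) :=
  W.mul_mem (W.map_mem _ hx) (W.map_mem _ hy)

lemma split_aux [CharZero W.K] {i : ℕ}
    (hnum : ∀ n m', (tPred A).sys.Num ((pw Y n).prod (pw X m')) = ⊥)
    {V : Submodule W.K (W.H Y)} (hVi : V ≤ W.gr Y i) (hV : IsStable A V)
    (hd : HasDualLine A X i hV) : IsSummand A i V := by
  classical
  obtain ⟨m', i', t, u, Δ, hΔ, hu0, hui, hdeg, hχ⟩ := hd
  rcases Nat.eq_zero_or_pos (finrank W.K V) with h0 | hpos
  · have h1 : V = ⊥ := Submodule.finrank_eq_zero.1 h0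
    refine ⟨W.gr Y i, fun g x hx => A.gr g _ i x hx, ?_, ?_⟩
    · rw [h1, bot_inf_eq]
    · rw [h1, bot_sup_eq]
  obtain ⟨n, hn⟩ : ∃ n, finrank W.K V = n + 1 := ⟨finrank W.K V - 1, by omega⟩
  let b : Basis (Fin (n + 1)) W.K V := Module.finBasisOfFinrankEq _ _ hn
  have hbi : LinearIndependent W.K fun a => (b a : W.H Y) :=
    b.linearIndependent.map' V.subtype (Submodule.ker_subtype V)
  set ψ : W.H (pw Y n) := Psi W Y n fun a => (b a : W.H Y) with hψ
  have hψ0 : ψ ≠ 0 := Psi_ne_zero hbi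
  set Z := (pw Y n).prod (pw X m') with hZ
  -- the intersection form is nondegenerate on the Tate classes on `Z`
  have hnZ : (tPred A).sys.Num Z = ⊥ := hnum n m'
  have hx0 : xp W ψ u ≠ 0 := fun h => hu0 (xp_eq_zero_left hψ0 h)
  have hψact : ∀ g, A.e g (pw Y n) ψ = detOn A hV g • ψ := by
    intro g
    rw [hψ, Psi_act]
    exact Psi_det b ((A.e g Y).restrict (hV g))
  have hxT : IsTate A Z t (xp W ψ u) := by
    refine ⟨?_, Δ, hΔ, fun g hg => ?_⟩
    · have h1 := xp_gr (Psi_gr (i := i) (v := fun a => (b a : W.H Y)) fun a => hVi (b a).2) hui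
      have h2 : (n + 1) * i + i' = 2 * t := by rw [← hn, hdeg]
      rw [h2] at h1
      exact h1
    · obtain ⟨χ, h1, h2⟩ := hχ g hg
      rw [xp_act, hψact, h1, xp_smul_left, xp_smul_right, smul_smul, h2]
  obtain ⟨j, z, hz, hz0⟩ : ∃ j z, IsTate A Z j z ∧ W.tr Z (xp W ψ u * z) ≠ 0 := by
    by_contra hcon
    push Not at hcon
    apply hx0
    have h1 : xp W ψ u ∈ (tPred A).sys.Num Z := by
      refine ⟨ClassPred.sp_of (Q := tPred A) hxT, fun y hy => ?_⟩
      refine ClassPred.sp_ind (Q := tPred A) (q := fun y => W.tr Z (xp W ψ u * y) = 0) ?_ ?_ ?_ hy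
      · intro j x hx; exact hcon j x hx
      · rw [mul_zero, map_zero]
      · intro a b ha hb; rw [mul_add, map_add, ha, hb, add_zero]
    rw [hnZ, Submodule.mem_bot] at h1
    exact h1
  obtain ⟨hzg, Δ', hΔ', hzΔ⟩ := hz
  -- the alternating form
  let ℓ : W.H (pw Y n) →ₗ[W.K] W.K :=
    { toFun := fun y => W.tr Z (xp W y u * z)
      map_add' := fun y y' => by rw [xp_add_left, add_mul, map_add]
      map_smul' := fun c y => by
        rw [xp_smul_left, smul_mul_assoc, map_smul, RingHom.id_apply] }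
  let F : W.H Y [⋀^Fin (n + 1)]→ₗ[W.K] W.K := ℓ.compAlternatingMap (Psi W Y n)
  have hF : ∀ v, F v = W.tr Z (xp W (Psi W Y n v) u * z) := fun v => rfl
  have hFb : (F fun a => (b a : W.H Y)) ≠ 0 := by rw [hF]; exact hz0
  have hcompl := isCompl_cpl b hFb
  have hst : ∀ g ∈ Δ ⊓ Δ', ∀ x ∈ cpl F V, A.e g Y x ∈ cpl F V := by
    intro g hg x hx
    refine cpl_stable (T := A.e g Y) (T' := A.e g⁻¹ Y) (fun y hy => hV _ y hy)
      (fun y => A.inv_right g Y y) (fun v hv => ?_) hx
    obtain ⟨χ, h1, h2⟩ := hχ g hg.1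
    have h3 : A.e g Z (xp W (Psi W Y n v) u * z) =
        (χ * A.c g ^ j) • (xp W (Psi W Y n fun a => A.e g Y (v a)) u * z) := by
      rw [A.ring, xp_act, Psi_act, h1, hzΔ g hg.2, xp_smul_right, smul_mul_smul_comm]
    have h4 := A.tr g Z (xp W (Psi W Y n v) u * z)
    rw [h3, map_smul, ← hF v, hv, mul_zero, smul_eq_mul] at h4
    have hχ0 : χ ≠ 0 := by
      rintro rfl
      rw [mul_zero] at h2
      exact pow_ne_zero t (A.ne g) h2.symm
    exact (mul_eq_zero.1 h4).resolve_left (mul_ne_zero hχ0 (pow_ne_zero _ (A.ne g)))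
  obtain ⟨U, hU, hUst⟩ := avg (fun g => A.e g Y) (fun x => A.one Y x)
    (fun g h x => A.mul g h Y x) hcompl hV (Δ ⊓ Δ') hst
  refine ⟨U ⊓ W.gr Y i, fun g x hx => ⟨hUst g x hx.1, A.gr g Y i x hx.2⟩, ?_, ?_⟩
  · rw [← inf_assoc, hU.inf_eq_bot, bot_inf_eq]
  · apply le_antisymm
    · exact sup_le hVi inf_le_right
    · intro x hx
      have h1 : x ∈ V ⊔ U := by rw [hU.sup_eq_top]; exact Submodule.mem_top
      obtain ⟨y, hy, y', hy', rfl⟩ := Submodule.mem_sup.1 h1
      refine Submodule.mem_sup.2 ⟨y, hy, y', ⟨hy', ?_⟩, rfl⟩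
      have h2 := Submodule.sub_mem _ hx (hVi hy)
      rwa [add_sub_cancel_left] at h2

/-- **Splitting.** If the intersection form is nondegenerate on the Tate classes of all powers of
`X`, a stable subspace whose determinant is potentially dual to a line is a direct summand. -/
theorem split [CharZero W.K] (hnum : ∀ n, (tPred A).sys.Num (pw X n) = ⊥) {m i : ℕ}
    {V : Submodule W.K (W.H (pw X m))} (hVi : V ≤ W.gr (pw X m) i) (hV : IsStable A V)
    (hd : HasDualLine A X i hV) : IsSummand A i V :=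
  split_aux A (fun n m' => by
    obtain ⟨N, ⟨θ⟩⟩ := exists_iso_pw X m n
    exact num_iso (prodCongr θ (Iso.refl _) ≪≫ pwAdd X N m') (hnum _)) hVi hV hd

end Pool.Agent.W5h89.SSD
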