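import Mathlib

/-!
# Complements given by alternating forms, and averaging over the cosets of a subgroup
-/

namespace Pool.Agent.W5h89.SSD

open Module

section Alt

variable {K M : Type*} [Field K] [AddCommGroup M] [Module K M] {n : ℕ}

/-- The complement of a subspace given by an alternating form. -/
def cpl (F : M [⋀^Fin (n + 1)]→ₗ[K] K) (V : Submodule K M) : Submodule K M where
  carrier := {x | ∀ y : Fin n → V, F (Matrix.vecCons x fun a => (y a : M)) = 0}
  zero_mem' := by
    intro y
    have h := F.map_vecCons_smul (fun a => (y a : M)) (0 : K) (0 : M)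
    rwa [smul_zero, zero_smul] at h
  add_mem' := by
    intro a b ha hb y
    rw [F.map_vecCons_add, ha y, hb y, add_zero]
  smul_mem' := by
    intro c a ha y
    rw [F.map_vecCons_smul, ha y, smul_zero]

variable {F : M [⋀^Fin (n + 1)]→ₗ[K] K} {V : Submodule K M}

lemma mem_cpl {x : M} : x ∈ cpl F V ↔
    ∀ y : Fin n → V, F (Matrix.vecCons x fun a => (y a : M)) = 0 := Iff.rfl

/-- The value at a vector of `V` in one place. -/
lemma update_self (b : Basis (Fin (n + 1)) K V) (m : Fin (n + 1)) (x : V) :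
    F (Function.update (fun a => (b a : M)) m (x : M)) =
      b.repr x m * F fun a => (b a : M) := by
  have h1 : (x : M) = ∑ a, b.repr x a • (b a : M) := by
    conv_lhs => rw [← b.sum_repr x]
    rw [Submodule.coe_sum]
    rfl
  have h2 : F (Function.update (fun a => (b a : M)) m (∑ a, b.repr x a • (b a : M))) =
      ∑ a, b.repr x a * F (Function.update (fun a => (b a : M)) m (b a : M)) := by
    rw [F.map_update_sum]
    exact Finset.sum_congr rfl fun a _ => by rw [F.map_update_smul, smul_eq_mul]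
  conv_lhs => rw [h1]
  rw [h2, Finset.sum_eq_single m]
  · rw [Function.update_eq_self m (fun a => (b a : M))]
  · intro a _ ha
    rw [F.map_update_self (fun a => (b a : M)) ha.symm, mul_zero]
  · intro h; exact absurd (Finset.mem_univ m) h

/-- A permutation with given values. -/
lemma exists_perm {v : Fin n → Fin (n + 1)} (hv : Function.Injective v) :
    ∃ σ : Equiv.Perm (Fin (n + 1)), ∀ a, σ a.succ = v a := by
  classical
  have h1 : ∃ m, ∀ a, v a ≠ m := by
    by_contra hcon
    push Not at hcon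
    have h2 : Function.Surjective v := fun m => hcon m
    have h3 := Fintype.card_le_of_surjective v h2
    rw [Fintype.card_fin, Fintype.card_fin] at h3
    omega
  obtain ⟨m, hm⟩ := h1
  have hinj : Function.Injective (Fin.cons m v : Fin (n + 1) → Fin (n + 1)) := by
    rw [Fin.cons_injective_iff]
    exact ⟨fun ⟨a, ha⟩ => hm a ha, hv⟩
  exact ⟨Equiv.ofBijective _ (Finite.injective_iff_bijective.1 hinj), fun a => by
    rw [Equiv.ofBijective_apply, Fin.cons_succ]⟩

lemma vecCons_perm (b : Fin (n + 1) → M) (σ : Equiv.Perm (Fin (n + 1))) (z : M) :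
    Matrix.vecCons z (fun a : Fin n => b (σ a.succ)) = Function.update b (σ 0) z ∘ σ := by
  funext a
  refine Fin.cases ?_ (fun a => ?_) a
  · rw [Matrix.cons_val_zero, Function.comp_apply, Function.update_self]
  · rw [Matrix.cons_val_succ, Function.comp_apply, Function.update_of_ne]
    intro h
    exact (Fin.succ_ne_zero a) (σ.injective h)

/-- A criterion. -/
lemma mem_cpl_of (b : Basis (Fin (n + 1)) K V) {z : M}
    (h : ∀ m, F (Function.update (fun a => (b a : M)) m z) = 0) : z ∈ cpl F V := by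
  have h1 : (F.curryLeft z).compLinearMap V.subtype = 0 := by
    refine Basis.ext_alternating b fun v hv => ?_
    obtain ⟨σ, hσ⟩ := exists_perm hv
    have h2 : ((F.curryLeft z).compLinearMap V.subtype) (fun i => b (v i)) =
        F (Matrix.vecCons z (fun a : Fin n => (b (σ a.succ) : M))) := by
      rw [AlternatingMap.compLinearMap_apply, AlternatingMap.curryLeft_apply_apply]
      congr 1
      congr 1
      funext a
      rw [hσ a]
      rfl
    rw [h2, vecCons_perm (fun a => (b a : M)) σ z, F.map_perm, h, smul_zero]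
    rfl
  intro y
  have h2 : ((F.curryLeft z).compLinearMap V.subtype) y = 0 := by rw [h1]; rfl
  rw [AlternatingMap.compLinearMap_apply, AlternatingMap.curryLeft_apply_apply] at h2
  exact h2

/-- The complement. -/
theorem isCompl_cpl (b : Basis (Fin (n + 1)) K V) (hb : (F fun a => (b a : M)) ≠ 0) :
    IsCompl V (cpl F V) := by
  constructor
  · rw [Submodule.disjoint_def]
    intro x hxV hx
    have key : ∀ m, b.repr ⟨x, hxV⟩ m = 0 := by
      intro m
      obtain ⟨σ, hσ⟩ := exists_perm (v := m.succAbove) (Fin.succAbove_right_injective)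
      have h0 : σ 0 = m := by
        by_contra hne
        obtain ⟨a, ha⟩ := Fin.exists_succAbove_eq hne
        rw [← hσ a] at ha
        exact Fin.succ_ne_zero a (σ.injective ha)
      have h1 := hx fun a => b (σ a.succ)
      rw [vecCons_perm (fun a => (b a : M)) σ x, F.map_perm, h0] at h1
      have h2 : F (Function.update (fun a => (b a : M)) m x) = 0 := by
        rcases Int.units_eq_one_or (Equiv.Perm.sign σ) with h3 | h3
        · rw [h3, one_smul] at h1; exact h1
        · rw [h3, Units.neg_smul, one_smul, neg_eq_zero] at h1; exact h1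
      have h3 := update_self (F := F) b m ⟨x, hxV⟩
      rw [h2] at h3
      rcases mul_eq_zero.1 h3.symm with h4 | h4
      · exact h4
      · exact absurd h4 hb
    have h1 : (⟨x, hxV⟩ : V) = 0 := by
      apply b.repr.injective
      rw [map_zero]
      exact Finsupp.ext fun m => key m
    exact congrArg Subtype.val h1
  · rw [codisjoint_iff, Submodule.eq_top_iff']
    intro x
    set v : V := ∑ a, ((F (Function.update (fun a => (b a : M)) a x)) /
      (F fun a => (b a : M))) • b a with hv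
    have hrep : ∀ m, b.repr v m = F (Function.update (fun a => (b a : M)) m x) /
        (F fun a => (b a : M)) := by
      intro m
      rw [hv, b.repr_sum_self]
    have h1 : x - (v : M) ∈ cpl F V := by
      apply mem_cpl_of b
      intro m
      rw [F.map_update_sub, update_self b m v, hrep m, div_mul_cancel₀ _ hb, sub_self]
    exact Submodule.mem_sup.2 ⟨v, v.2, x - v, h1, by abel⟩

/-- The complement is stable. -/
lemma cpl_stable {T T' : M →ₗ[K] M} (hT' : ∀ x, x ∈ V → T' x ∈ V) (hTT : ∀ x, T (T' x) = x)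
    (hF : ∀ v : Fin (n + 1) → M, F v = 0 → F (fun a => T (v a)) = 0) {x : M}
    (hx : x ∈ cpl F V) : T x ∈ cpl F V := by
  intro y
  have h1 := hF _ (hx fun a => ⟨T' (y a), hT' _ (y a).2⟩)
  have h2 : (fun a => T ((Matrix.vecCons x fun a => T' (y a) : Fin (n + 1) → M) a)) =
      Matrix.vecCons (T x) fun a => (y a : M) := by
    funext a
    refine Fin.cases ?_ (fun a => ?_) a
    · rw [Matrix.cons_val_zero, Matrix.cons_val_zero]
    · rw [Matrix.cons_val_succ, Matrix.cons_val_succ, hTT]
  rw [← h2]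
  exact h1

end Alt

section Avg

variable {K M Γ : Type*} [Field K] [CharZero K] [AddCommGroup M] [Module K M] [Group Γ]

/-- **Averaging.** A stable subspace which has a complement stable under a subgroup of finite index
has a stable complement. -/
theorem avg (ρ : Γ → M →ₗ[K] M) (h1 : ∀ x, ρ 1 x = x) (hmul : ∀ g h x, ρ (g * h) x = ρ g (ρ h x))
    {V U : Submodule K M} (hVU : IsCompl V U) (hV : ∀ g, ∀ x ∈ V, ρ g x ∈ V)
    (Δ : Subgroup Γ) [Δ.FiniteIndex] (hU : ∀ g ∈ Δ, ∀ x ∈ U, ρ g x ∈ U) :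
    ∃ U' : Submodule K M, IsCompl V U' ∧ ∀ g, ∀ x ∈ U', ρ g x ∈ U' := by
  classical
  set p : M →ₗ[K] M := V.subtype ∘ₗ V.projectionOnto U hVU with hp
  have hpV : ∀ x, p x ∈ V := fun x => (V.projectionOnto U hVU x).2
  have hp1 : ∀ x ∈ V, p x = x := by
    intro x hx
    have := Submodule.projectionOnto_apply_left hVU ⟨x, hx⟩
    rw [hp, LinearMap.comp_apply, this]
    rfl
  have hp0 : ∀ x ∈ U, p x = 0 := by
    intro x hx
    rw [hp, LinearMap.comp_apply, (Submodule.projectionOnto_apply_eq_zero_iff hVU).2 hx,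
      map_zero]
  have hdec : ∀ x, ∃ v ∈ V, ∃ u ∈ U, x = v + u := by
    intro x
    have := Submodule.mem_sup.1 (hVU.sup_eq_top ▸ Submodule.mem_top : x ∈ V ⊔ U)
    obtain ⟨v, hv, u, hu, h⟩ := this
    exact ⟨v, hv, u, hu, h.symm⟩
  have hpc : ∀ g ∈ Δ, ∀ x, p (ρ g x) = ρ g (p x) := by
    intro g hg x
    obtain ⟨v, hv, u, hu, rfl⟩ := hdec x
    rw [map_add, map_add, hp1 _ (hV g v hv), hp0 _ (hU g hg u hu), map_add, hp1 v hv, hp0 u hu,
      add_zero, add_zero]
  have hinv : ∀ g x, ρ g (ρ g⁻¹ x) = x := fun g x => by rw [← hmul, mul_inv_cancel, h1]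
  have hinv' : ∀ g x, ρ g⁻¹ (ρ g x) = x := fun g x => by rw [← hmul, inv_mul_cancel, h1]
  set f : Γ → M →ₗ[K] M := fun g => ρ g ∘ₗ p ∘ₗ ρ g⁻¹ with hf
  have hfδ : ∀ g, ∀ δ ∈ Δ, f (g * δ) = f g := by
    intro g δ hδ
    apply LinearMap.ext
    intro x
    rw [hf]
    simp only [LinearMap.comp_apply]
    rw [mul_inv_rev, hmul δ⁻¹ g⁻¹ x, hpc δ⁻¹ (Δ.inv_mem hδ), hmul g δ, hinv δ]
  have hfout : ∀ (h : Γ) (q : Γ ⧸ Δ), f (h • q).out = f (h * q.out) := by
    intro h q
    have h2 : (h • q) = ((h * q.out : Γ) : Γ ⧸ Δ) := by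
      conv_lhs => rw [← QuotientGroup.out_eq' q]
      rfl
    obtain ⟨δ, hδ⟩ := QuotientGroup.mk_out_eq_mul Δ (h * q.out)
    rw [h2, hδ]
    exact hfδ _ _ δ.2
  have : Fintype (Γ ⧸ Δ) := Fintype.ofFinite _
  set P : M →ₗ[K] M := ∑ q : Γ ⧸ Δ, f q.out with hP
  have hPV : ∀ x, P x ∈ V := by
    intro x
    rw [hP, LinearMap.sum_apply]
    exact Submodule.sum_mem _ fun q _ => hV _ _ (hpV _)
  have hP1 : ∀ x ∈ V, P x = (Fintype.card (Γ ⧸ Δ) : K) • x := by
    intro x hx
    rw [hP, LinearMap.sum_apply]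
    have h2 : ∀ q : Γ ⧸ Δ, f q.out x = x := by
      intro q
      change ρ q.out (p (ρ (q.out)⁻¹ x)) = x
      rw [hp1 _ (hV _ _ hx), hinv]
    rw [Finset.sum_congr rfl fun q _ => h2 q, Finset.sum_const, Finset.card_univ,
      ← Nat.cast_smul_eq_nsmul K]
  have hPc : ∀ h x, P (ρ h x) = ρ h (P x) := by
    intro h x
    have h3 : ∀ g, f g (ρ h x) = ρ h (f (h⁻¹ * g) x) := by
      intro g
      change ρ g (p (ρ g⁻¹ (ρ h x))) = ρ h (ρ (h⁻¹ * g) (p (ρ (h⁻¹ * g)⁻¹ x)))
      rw [← hmul h, mul_inv_cancel_left, mul_inv_rev, inv_inv, hmul g⁻¹ h]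
    have h4 : P (ρ h x) = ∑ q : Γ ⧸ Δ, ρ h (f (h⁻¹ * q.out) x) := by
      rw [hP, LinearMap.sum_apply]
      exact Finset.sum_congr rfl fun q _ => h3 _
    have h5 : ρ h (P x) = ∑ q : Γ ⧸ Δ, ρ h (f q.out x) := by
      rw [hP, LinearMap.sum_apply, map_sum]
    rw [h4, h5]
    refine Fintype.sum_equiv (MulAction.toPerm h⁻¹ : Equiv.Perm (Γ ⧸ Δ)) _ _ fun q => ?_
    rw [MulAction.toPerm_apply, hfout]
  have hcard : (Fintype.card (Γ ⧸ Δ) : K) ≠ 0 := by
    have : 0 < Fintype.card (Γ ⧸ Δ) := Fintype.card_pos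
    exact_mod_cast this.ne'
  refine ⟨LinearMap.ker P, ?_, ?_⟩
  · constructor
    · rw [Submodule.disjoint_def]
      intro x hx hx0
      rw [LinearMap.mem_ker, hP1 x hx] at hx0
      exact (smul_eq_zero.1 hx0).resolve_left hcard
    · rw [codisjoint_iff, Submodule.eq_top_iff']
      intro x
      refine Submodule.mem_sup.2 ⟨(Fintype.card (Γ ⧸ Δ) : K)⁻¹ • P x,
        Submodule.smul_mem _ _ (hPV x), x - (Fintype.card (Γ ⧸ Δ) : K)⁻¹ • P x, ?_, by abel⟩
      rw [LinearMap.mem_ker, map_sub, map_smul, hP1 _ (hPV x), smul_smul,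
        inv_mul_cancel₀ hcard, one_smul, sub_self]
  · intro g x hx
    rw [LinearMap.mem_ker] at hx ⊢
    rw [hPc, hx, map_zero]

end Avg

end Pool.Agent.W5h89.SSD
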